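import Pool.Agent.E8helper30.RG.Stm2

set_option autoImplicit false

open Pool.Agent.E8helper30.RG

namespace Pool.Agent.E8helper70.RG2

theorem t_MIN : S_MIN := by
  intro n G v w hw
  obtain ⟨u, hu, hmin⟩ := w.support.toFinset.exists_min_image id
    ⟨v, List.mem_toFinset.2 w.start_mem_support⟩
  rw [List.mem_toFinset] at hu
  have hc := SimpleGraph.Walk.IsCycle.rotate hu hw
  have hnil : ¬ (w.rotate u hu).Nil := hc.not_nil
  have hedge : ∀ e, e ∈ (w.rotate u hu).edges ↔ e ∈ w.edges := fun e =>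
    (w.rotate_edges u hu).mem_iff
  have h1 := (hedge _).1 ((w.rotate u hu).mk_start_snd_mem_edges hnil)
  have h2 := (hedge _).1 ((w.rotate u hu).mk_penultimate_end_mem_edges hnil)
  rw [Sym2.eq_swap] at h2
  have key : ∀ x, s(u, x) ∈ w.edges → u < x := by
    intro x hx
    have h3 : x ∈ w.support := w.snd_mem_support_of_mem_edges hx
    have h4 := hmin x (List.mem_toFinset.2 h3)
    have h5 : u ≠ x := (w.adj_of_mem_edges hx).ne
    exact lt_of_le_of_ne h4 h5
  exact ⟨u, _, _, key _ h1, key _ h2, hc.snd_ne_penultimate, h1, h2⟩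

end Pool.Agent.E8helper70.RG2
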